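import Mathlib
import Pool.Agent.Q96.FamSpace

/-!
# The finite-antichain-cover ideal on the binary tree is `H(F, ¬c₀)` for some family `F`
-/

set_option autoImplicit false

open Filter Topology Q96.FamSpace

namespace Pool.Agent.Results.MP_de5a3f_an.AntichainIdealRealized

/-- the nodes of the binary tree, ordered by extension (`s <+: t`: `t` extends `s`) -/
abbrev Node : Type := List Bool

/-- `F ↾ H`: the traces `A ∩ H`, `A ∈ F`, as finite subsets of `H` -/
def restrict (F : Set (Finset Node)) (H : Set Node) : Set (Finset H) :=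
  {B | ∃ A ∈ F, ∀ x : H, x ∈ B ↔ (x : Node) ∈ A}

/-- `H` is a union of finitely many antichains -/
def FinUnionAntichains (H : Set Node) : Prop :=
  ∃ (N : ℕ) (P : Fin N → Set Node), (∀ i, IsAntichain (· <+: ·) (P i)) ∧ H = ⋃ i, P i

/-- the family: finite antichains, and finite chains all of whose nodes are long -/
def Fam : Set (Finset Node) :=
  {A | IsAntichain (· <+: ·) (A : Set Node)} ∪
    {A | IsChain (· <+: ·) (A : Set Node) ∧ ∀ a ∈ A, A.card ≤ a.length}

lemma upper {H : Set Node} (hH : FinUnionAntichains H) :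
    ∃ N : ℝ, 0 < N ∧ ∀ x : H →₀ ℝ, l1 x ≤ N * famNorm (restrict Fam H) x := by
  classical
  obtain ⟨N, P, hP, hHP⟩ := hH
  refine ⟨N + 1, by positivity, fun x => ?_⟩
  set S : Fin N → Finset H := fun i => x.support.filter (fun k : H => (k : Node) ∈ P i) with hS
  have h1 : l1 x ≤ ∑ i : Fin N, ∑ k ∈ S i, |x k| := by
    have h3 : ∀ i, ∑ k ∈ S i, |x k| = ∑ k ∈ x.support, if (k : Node) ∈ P i then |x k| else 0 := by
      intro i
      rw [hS, Finset.sum_filter]
    simp_rw [h3]
    rw [Finset.sum_comm]
    apply Finset.sum_le_sum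
    intro k _
    have hkH : (k : Node) ∈ ⋃ i, P i := hHP ▸ k.2
    obtain ⟨i, hi⟩ := Set.mem_iUnion.mp hkH
    have h4 := Finset.single_le_sum (f := fun i : Fin N => if (k : Node) ∈ P i then |x k| else 0)
      (s := Finset.univ) (fun j _ => by positivity) (Finset.mem_univ i)
    simpa [hi] using h4
  have h2 : ∀ i : Fin N, ∑ k ∈ S i, |x k| ≤ famNorm (restrict Fam H) x := by
    intro i
    apply le_famNorm
    refine ⟨(S i).map (Function.Embedding.subtype _), Or.inl ?_, ?_⟩
    · apply (hP i).subset
      intro a ha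
      rw [Finset.mem_coe, Finset.mem_map] at ha
      obtain ⟨k, hk, rfl⟩ := ha
      exact (Finset.mem_filter.mp hk).2
    · intro y
      constructor
      · intro hy
        exact Finset.mem_map.mpr ⟨y, hy, rfl⟩
      · intro hy
        obtain ⟨k, hk, hky⟩ := Finset.mem_map.mp hy
        have : k = y := Subtype.ext hky
        rwa [← this]
  calc l1 x ≤ ∑ i : Fin N, ∑ k ∈ S i, |x k| := h1
    _ ≤ ∑ _i : Fin N, famNorm (restrict Fam H) x := Finset.sum_le_sum fun i _ => h2 i
    _ = N * famNorm (restrict Fam H) x := by simp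
    _ ≤ (N + 1) * famNorm (restrict Fam H) x := by
        have := famNorm_nonneg (F := restrict Fam H) x
        nlinarith

/-- the nodes of `H` strictly below `t` -/
noncomputable def below (H : Set Node) (t : Node) : Finset Node := by
  classical
  exact t.inits.toFinset.filter (fun s => s ∈ H ∧ s ≠ t)

lemma mem_below {H : Set Node} {t s : Node} : s ∈ below H t ↔ s <+: t ∧ s ∈ H ∧ s ≠ t := by
  classical
  unfold below
  rw [Finset.mem_filter, List.mem_toFinset, List.mem_inits]

lemma exists_big {H : Set Node} (hH : ¬ FinUnionAntichains H) (N : ℕ) :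
    ∃ t ∈ H, N ≤ (below H t).card := by
  classical
  by_contra hcon
  have hcon : ∀ t ∈ H, (below H t).card < N := fun t ht => by
    by_contra h
    exact hcon ⟨t, ht, not_lt.mp h⟩
  apply hH
  refine ⟨N, fun i => {t | t ∈ H ∧ (below H t).card = i}, ?_, ?_⟩
  · rintro i s ⟨hs, hsi⟩ t ⟨ht, hti⟩ hst hpre
    have hsub : insert s (below H s) ⊆ below H t := by
      intro a ha
      rw [Finset.mem_insert] at ha
      rw [mem_below]
      rcases ha with rfl | ha
      · exact ⟨hpre, hs, hst⟩
      · obtain ⟨h1, h2, h3⟩ := mem_below.mp ha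
        refine ⟨h1.trans hpre, h2, ?_⟩
        rintro rfl
        exact h3 (h1.eq_of_length_le hpre.length_le)
    have h1 := Finset.card_le_card hsub
    rw [Finset.card_insert_of_notMem (by rw [mem_below]; tauto), hsi, hti] at h1
    omega
  · ext t
    rw [Set.mem_iUnion]
    constructor
    · intro ht
      exact ⟨⟨(below H t).card, hcon t ht⟩, ht, rfl⟩
    · rintro ⟨i, ht, _⟩
      exact ht

/-- long chains far up in the tree -/
lemma exists_chain {H : Set Node} (hH : ¬ FinUnionAntichains H) (n L : ℕ) :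
    ∃ C : Finset Node, (↑C : Set Node) ⊆ H ∧ IsChain (· <+: ·) (C : Set Node) ∧ C.card = n ∧
      ∀ a ∈ C, L < a.length ∧ n ≤ a.length := by
  classical
  set m := max (L + 1) n with hm
  obtain ⟨t, ht, hN⟩ := exists_big hH (n + m)
  set D := (below H t).filter (fun s => m ≤ s.length) with hD
  have hlow : ((below H t).filter (fun s => ¬ m ≤ s.length)).card ≤ m := by
    have hinj : Set.InjOn List.length
        (↑((below H t).filter (fun s => ¬ m ≤ s.length)) : Set Node) := by
      intro a ha b hb hab
      rw [Finset.mem_coe, Finset.mem_filter, mem_below] at ha hb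
      rcases List.prefix_or_prefix_of_prefix ha.1.1 hb.1.1 with h | h
      · exact h.eq_of_length hab
      · exact (h.eq_of_length hab.symm).symm
    have hmaps : ∀ a ∈ (below H t).filter (fun s => ¬ m ≤ s.length),
        a.length ∈ Finset.range m := by
      intro a ha
      rw [Finset.mem_filter] at ha
      rw [Finset.mem_range]; omega
    have := Finset.card_le_card_of_injOn List.length hmaps hinj
    rwa [Finset.card_range] at this
  have hcard : D.card + ((below H t).filter (fun s => ¬ m ≤ s.length)).card =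
      (below H t).card := by
    rw [hD]
    exact Finset.card_filter_add_card_filter_not _
  have hDn : n ≤ D.card := by omega
  obtain ⟨C, hCD, hCn⟩ := Finset.exists_subset_card_eq hDn
  refine ⟨C, ?_, ?_, hCn, ?_⟩
  · intro a ha
    have := Finset.mem_filter.mp (hCD ha)
    exact (mem_below.mp this.1).2.1
  · intro a ha b hb _
    have h1 := (mem_below.mp (Finset.mem_filter.mp (hCD ha)).1).1
    have h2 := (mem_below.mp (Finset.mem_filter.mp (hCD hb)).1).1
    exact List.prefix_or_prefix_of_prefix h1 h2
  · intro a ha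
    have := (Finset.mem_filter.mp (hCD ha)).2
    constructor <;> omega

lemma coe_sum_smul {Ω : Type} (F : Set (Finset Ω)) (s : Finset ℕ) (a : ℕ → ℝ)
    (v : ℕ → (Ω →₀ ℝ)) :
    ‖∑ k ∈ s, a k • (((show C00 F from v k) : C00 F) : XF F)‖ =
      famNorm F (∑ k ∈ s, a k • v k) := by
  have e2 : ((∑ n ∈ s, a n • (show C00 F from v n) : C00 F) : XF F) =
      ∑ n ∈ s, a n • (((show C00 F from v n) : C00 F) : XF F) := by
    have : ∀ z : C00 F, (z : XF F) = UniformSpace.Completion.toComplL (𝕜 := ℝ) z := fun z => rfl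
    simp only [this, map_sum, map_smul]
  rw [← e2, UniformSpace.Completion.norm_coe]
  rfl

lemma sum_half_le (s : Finset ℕ) : ∑ n ∈ s, (1 / 2 : ℝ) ^ (n + 1) ≤ 1 := by
  have hs : Summable fun n : ℕ => (1 / 2 : ℝ) ^ (n + 1) :=
    (summable_nat_add_iff 1).mpr summable_geometric_two
  refine le_trans (hs.sum_le_tsum s fun _ _ => by positivity) ?_
  have : ∑' n : ℕ, (1 / 2 : ℝ) ^ (n + 1) = 1 := by
    have h3 : ∀ n : ℕ, (1 / 2 : ℝ) ^ (n + 1) = (1 / 2) * (1 / 2) ^ n := fun n => by ring
    simp_rw [h3]
    rw [tsum_mul_left, tsum_geometric_two]; norm_num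
  rw [this]

/-- the chosen chains -/
structure Chains (H : Set Node) where
  C : ℕ → Finset Node
  L : ℕ → ℕ
  sub : ∀ k, (↑(C k) : Set Node) ⊆ H
  chain : ∀ k, IsChain (· <+: ·) (C k : Set Node)
  card : ∀ k, (C k).card = 2 ^ (k + 1) * (L k + 1)
  long : ∀ k, ∀ a ∈ C k, L k < a.length
  long' : ∀ k, ∀ a ∈ C k, (C k).card ≤ a.length
  short : ∀ k, ∀ a ∈ C k, a.length ≤ L (k + 1)
  mono : Monotone L

lemma exists_chains {H : Set Node} (hH : ¬ FinUnionAntichains H) : Nonempty (Chains H) := by
  choose Cf h1 h2 h3 h4 using fun (k L : ℕ) => exists_chain hH (2 ^ (k + 1) * (L + 1)) L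
  let L : ℕ → ℕ := fun n => Nat.rec 0 (fun k Lk => max Lk ((Cf k Lk).sup List.length)) n
  have hL : ∀ k, L (k + 1) = max (L k) ((Cf k (L k)).sup List.length) := fun k => rfl
  refine ⟨⟨fun k => Cf k (L k), L, fun k => h1 _ _, fun k => h2 _ _, fun k => h3 _ _,
    fun k a ha => (h4 _ _ a ha).1, fun k a ha => ?_, fun k a ha => ?_, ?_⟩⟩
  · rw [h3]; exact (h4 _ _ a ha).2
  · rw [hL]; exact le_max_of_le_right (Finset.le_sup (f := List.length) ha)
  · exact monotone_nat_of_le_succ fun k => by rw [hL]; exact le_max_left _ _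

namespace Chains

variable {H : Set Node} (D : Chains H)

lemma disj {j k : ℕ} (h : j ≠ k) {a : Node} (ha : a ∈ D.C j) (hb : a ∈ D.C k) : False := by
  rcases lt_or_gt_of_ne h with h | h
  · have h1 := D.short j a ha
    have h2 := D.long k a hb
    have h3 := D.mono (Nat.succ_le_of_lt h)
    simp only [Nat.succ_eq_add_one] at h3
    omega
  · have h1 := D.short k a hb
    have h2 := D.long j a ha
    have h3 := D.mono (Nat.succ_le_of_lt h)
    simp only [Nat.succ_eq_add_one] at h3
    omega

lemma card_pos (k : ℕ) : 0 < ((D.C k).card : ℝ) := by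
  rw [D.card]; positivity

open Classical in
/-- the averages over the chosen chains -/
noncomputable def v (k : ℕ) : H →₀ ℝ :=
  Finsupp.onFinset ((D.C k).subtype (· ∈ H))
    (fun t => if (t : Node) ∈ D.C k then 1 / ((D.C k).card : ℝ) else 0) (by
      intro t ht
      rw [Finset.mem_subtype]
      by_contra h
      exact ht (if_neg h))

open Classical in
lemma v_apply (k : ℕ) (t : H) :
    D.v k t = if (t : Node) ∈ D.C k then 1 / ((D.C k).card : ℝ) else 0 := rfl

lemma v_nonneg (k : ℕ) (t : H) : 0 ≤ D.v k t := by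
  rw [v_apply]; positivity

lemma upper_sum (B : Finset H) (hB : B ∈ restrict Fam H) (s : Finset ℕ) :
    ∑ k ∈ s, ∑ t ∈ B, D.v k t ≤ 2 := by
  classical
  obtain ⟨A, hA, hAB⟩ := hB
  set w : ℕ → Finset H := fun k => B.filter (fun t : H => (t : Node) ∈ D.C k) with hw
  have h1 : ∀ k, ∑ t ∈ B, D.v k t = ((w k).card : ℝ) / ((D.C k).card : ℝ) := by
    intro k
    simp_rw [v_apply]
    rw [← Finset.sum_filter, Finset.sum_const, nsmul_eq_mul, mul_one_div]
  simp_rw [h1]
  have hwC : ∀ k, (w k).card ≤ (D.C k).card := by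
    intro k
    have h2 : (w k).map (Function.Embedding.subtype _) ⊆ D.C k := by
      intro a ha
      obtain ⟨t, ht, rfl⟩ := Finset.mem_map.mp ha
      exact (Finset.mem_filter.mp ht).2
    have := Finset.card_le_card h2
    rwa [Finset.card_map] at this
  have hBA : B.card ≤ A.card := by
    have h2 : B.map (Function.Embedding.subtype _) ⊆ A := by
      intro a ha
      obtain ⟨t, ht, rfl⟩ := Finset.mem_map.mp ha
      exact (hAB t).mp ht
    have := Finset.card_le_card h2
    rwa [Finset.card_map] at this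
  obtain ⟨k0, hk0⟩ : ∃ k0 : ℕ, ∀ k ∈ s, ((w k).card : ℝ) / ((D.C k).card : ℝ) ≤
      (if k = k0 then 1 else 0) + (1 / 2 : ℝ) ^ (k + 1) := by
    rcases hA with hA | ⟨hA, hA'⟩
    · refine ⟨0, fun k _ => ?_⟩
      have h2 : (w k).card ≤ 1 := by
        rw [Finset.card_le_one]
        intro a ha b hb
        by_contra hab
        have ha' := Finset.mem_filter.mp ha
        have hb' := Finset.mem_filter.mp hb
        have hab' : (a : Node) ≠ b := fun h => hab (Subtype.ext h)
        have haA : (a : Node) ∈ A := (hAB a).mp ha'.1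
        have hbA : (b : Node) ∈ A := (hAB b).mp hb'.1
        rcases D.chain k ha'.2 hb'.2 hab' with h | h
        · exact hA haA hbA hab' h
        · exact hA hbA haA hab'.symm h
      have h3 : ((w k).card : ℝ) / ((D.C k).card : ℝ) ≤ (1 / 2 : ℝ) ^ (k + 1) := by
        rw [div_le_iff₀ (D.card_pos k), D.card]
        push_cast
        have h4 : ((w k).card : ℝ) ≤ 1 := by exact_mod_cast h2
        have h5 : (1 / 2 : ℝ) ^ (k + 1) * (2 ^ (k + 1) * ((D.L k : ℝ) + 1)) = (D.L k : ℝ) + 1 := by
          rw [← mul_assoc, ← mul_pow]; norm_num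
        rw [h5]
        have : (0 : ℝ) ≤ D.L k := Nat.cast_nonneg _
        linarith
      split_ifs <;> linarith
    · by_cases hne : ∃ k ∈ s, (w k).Nonempty
      · obtain ⟨k1, hk1s, hk1⟩ := hne
        have hex : ∃ k, (w k).Nonempty := ⟨k1, hk1⟩
        refine ⟨Nat.find hex, fun k _ => ?_⟩
        obtain ⟨a, ha⟩ := Nat.find_spec hex
        have hmin : ∀ j, j < Nat.find hex → ¬ (w j).Nonempty := fun j hj => Nat.find_min hex hj
        set k0 := Nat.find hex with hk0
        have ha' := Finset.mem_filter.mp ha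
        have haA := hA' a ((hAB a).mp ha'.1)
        have hlen := D.short k0 a ha'.2
        rcases lt_trichotomy k k0 with h | h | h
        · have h0 : (w k).card = 0 := by
            rw [Finset.card_eq_zero]; exact Finset.not_nonempty_iff_eq_empty.mp (hmin k h)
          rw [h0]
          simp only [CharP.cast_eq_zero, zero_div]
          positivity
        · rw [if_pos h]
          have : ((w k).card : ℝ) / ((D.C k).card : ℝ) ≤ 1 := by
            rw [div_le_one (D.card_pos k)]
            exact_mod_cast hwC k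
          have h2 : (0 : ℝ) ≤ (1 / 2) ^ (k + 1) := by positivity
          linarith
        · rw [if_neg h.ne', zero_add, div_le_iff₀ (D.card_pos k), D.card]
          have h2 : (w k).card ≤ D.L k + 1 := by
            have h3 : (w k).card ≤ B.card := Finset.card_le_card (Finset.filter_subset _ _)
            have h4 := D.mono (Nat.succ_le_of_lt h)
            simp only [Nat.succ_eq_add_one] at h4
            omega
          push_cast
          have h5 : (1 / 2 : ℝ) ^ (k + 1) * (2 ^ (k + 1) * ((D.L k : ℝ) + 1)) =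
              (D.L k : ℝ) + 1 := by
            rw [← mul_assoc, ← mul_pow]; norm_num
          rw [h5]
          exact_mod_cast h2
      · refine ⟨0, fun k hk => ?_⟩
        have h0 : (w k).card = 0 := by
          rw [Finset.card_eq_zero]
          exact Finset.not_nonempty_iff_eq_empty.mp fun h => hne ⟨k, hk, h⟩
        rw [h0]
        simp only [CharP.cast_eq_zero, zero_div]
        positivity
  calc ∑ k ∈ s, ((w k).card : ℝ) / ((D.C k).card : ℝ)
      ≤ ∑ k ∈ s, ((if k = k0 then 1 else 0) + (1 / 2 : ℝ) ^ (k + 1)) :=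
        Finset.sum_le_sum hk0
    _ = (∑ k ∈ s, if k = k0 then (1 : ℝ) else 0) + ∑ k ∈ s, (1 / 2 : ℝ) ^ (k + 1) :=
        Finset.sum_add_distrib
    _ ≤ 1 + 1 := by
        apply add_le_add _ (sum_half_le s)
        rw [Finset.sum_ite_eq']
        split_ifs <;> norm_num
    _ = 2 := by norm_num

lemma hup (s : Finset ℕ) (a : ℕ → ℝ) (M : ℝ) (hM : 0 ≤ M) (ha : ∀ k ∈ s, |a k| ≤ M) :
    famNorm (restrict Fam H) (∑ k ∈ s, a k • D.v k) ≤ 2 * M := by
  apply famNorm_le _ (by positivity)
  intro B hB
  calc ∑ t ∈ B, |(∑ k ∈ s, a k • D.v k) t| ≤ ∑ t ∈ B, ∑ k ∈ s, M * D.v k t := by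
        apply Finset.sum_le_sum
        intro t _
        rw [Finsupp.finset_sum_apply]
        refine le_trans (Finset.abs_sum_le_sum_abs _ _) ?_
        apply Finset.sum_le_sum
        intro k hk
        rw [Finsupp.smul_apply, smul_eq_mul, abs_mul, abs_of_nonneg (D.v_nonneg k t)]
        exact mul_le_mul_of_nonneg_right (ha k hk) (D.v_nonneg k t)
    _ = M * ∑ k ∈ s, ∑ t ∈ B, D.v k t := by
        rw [Finset.sum_comm, Finset.mul_sum]
        apply Finset.sum_congr rfl
        intro k _
        rw [Finset.mul_sum]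
    _ ≤ M * 2 := mul_le_mul_of_nonneg_left (D.upper_sum B hB s) hM
    _ = 2 * M := mul_comm _ _

lemma hlow (s : Finset ℕ) (a : ℕ → ℝ) (k : ℕ) (hk : k ∈ s) :
    |a k| ≤ famNorm (restrict Fam H) (∑ k ∈ s, a k • D.v k) := by
  classical
  set B : Finset H := (D.C k).subtype (· ∈ H) with hB
  have hBmem : B ∈ restrict Fam H :=
    ⟨D.C k, Or.inr ⟨D.chain k, D.long' k⟩, fun x => Finset.mem_subtype⟩
  refine le_trans (le_of_eq ?_) (le_famNorm _ hBmem)
  have h1 : ∀ t ∈ B, |(∑ j ∈ s, a j • D.v j) t| = |a k| / ((D.C k).card : ℝ) := by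
    intro t ht
    have ht' : (t : Node) ∈ D.C k := Finset.mem_subtype.mp ht
    rw [Finsupp.finset_sum_apply, Finset.sum_eq_single_of_mem k hk]
    · rw [Finsupp.smul_apply, v_apply, if_pos ht', smul_eq_mul, mul_one_div, abs_div,
        abs_of_pos (D.card_pos k)]
    · intro j _ hj
      rw [Finsupp.smul_apply, v_apply, if_neg (fun h => D.disj hj h ht'), smul_zero]
  rw [Finset.sum_congr rfl h1, Finset.sum_const, nsmul_eq_mul]
  have h2 : B.card = (D.C k).card := by
    have : B.map (Function.Embedding.subtype _) = D.C k := by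
      ext t
      rw [Finset.mem_map]
      constructor
      · rintro ⟨x, hx, rfl⟩
        exact Finset.mem_subtype.mp hx
      · intro ht
        exact ⟨⟨t, D.sub k ht⟩, Finset.mem_subtype.mpr ht, rfl⟩
    rw [← this, Finset.card_map]
  rw [h2]
  field_simp [(D.card_pos k).ne']

include D in
lemma contains : ContainsC0 (XF (restrict Fam H)) := by
  apply containsC0_of_seq (fun k => ((show C00 (restrict Fam H) from D.v k :
    C00 (restrict Fam H)) : XF (restrict Fam H))) 2 (by norm_num)
  · intro s a M hM ha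
    rw [coe_sum_smul]
    exact D.hup s a M hM ha
  · intro s a k hk
    rw [coe_sum_smul]
    exact D.hlow s a k hk

end Chains

/-- **Positive answer.** There is a family `F` of finite sets of nodes covering the binary tree such
that, for all sets `H` of nodes, `X_{F↾H}` contains no copy of `c₀` iff `H` is a union of finitely
many antichains. -/
theorem result : ∃ F : Set (Finset Node), (∀ t : Node, ∃ A ∈ F, t ∈ A) ∧
    ∀ H : Set Node, ¬ ContainsC0 (XF (restrict F H)) ↔ FinUnionAntichains H := by
  refine ⟨Fam, fun t => ⟨{t}, Or.inl ?_, Finset.mem_singleton_self t⟩, fun H => ⟨?_, ?_⟩⟩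
  · change IsAntichain (· <+: ·) (({t} : Finset Node) : Set Node)
    rw [Finset.coe_singleton]
    exact Set.subsingleton_singleton.isAntichain _
  · intro h
    by_contra hH
    obtain ⟨D⟩ := exists_chains hH
    exact h (Chains.contains D)
  · intro hH
    obtain ⟨N, hN, h⟩ := upper hH
    exact not_containsC0 _ N hN h

end Pool.Agent.Results.MP_de5a3f_an.AntichainIdealRealized
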